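import Pool.Agent.P.MP_c821f2_co.V.Main

namespace Pool.Agent.Results.MP_c821f2_co.FewMutations

open Pool.Agent.P.MP_c821f2_co

/-- Q1 has the answer yes, already for uniform oriented matroids of rank `4`: there is a uniform
(every four elements are independent), simple, connected, Euclidean oriented matroid of rank `4`
on ten elements with an element adjacent to exactly `3 < 4` mutations. -/
theorem result : ∃ (O : OM (Fin 10)) (e : Fin 10),
    O.HasRank 4 ∧ (∀ I : Finset (Fin 10), I.card = 4 → O.Indep I) ∧
      O.Simple ∧ O.Connected ∧ O.Euclidean ∧ (O.mutationsAdj 4 e).ncard = 3 :=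
  ⟨V.exO, 0, V.exO_rank, V.exO_uniform, V.exO_simple, V.exO_connected, V.exO_euclidean,
    V.exO_mutations⟩

end Pool.Agent.Results.MP_c821f2_co.FewMutations
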